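import Pool.Agent.Helper24_Core.Final
import Pool.Agent.Helper24_Core.Proj

/-!
# Core decompositions of surface compacta are not determined by polygon lifts

Q1 of `MP_b18375_gt` asks whether, for every closed surface `S`, every compactum `K ⊆ S` and every
polygon projection `τ : P → S`, the core decomposition of `K` is the finest upper semicontinuous
decomposition of `K` into subcontinua that splits none of the sets `τ(δ)`, where `δ` runs over the
elements of the core decomposition of `τ⁻¹(K)`.

The answer is no, already for the torus `S = ℝ/ℤ × ℝ/ℤ` and the square `P` with opposite sides
identified by translations.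

The compactum is `K = {(x, f(x) - t) : 1/4 ≤ x ≤ 3/4, t = 0 or t = 1/n, n ≥ 5}` modulo `ℤ²`, where
`f ≥ 0` is the (truncated) distance to the set `Z` of points near which a devil's staircase `c` is
not locally constant.  The arcs at `t = 1/n` converge to the arc `A` at `t = 0`, so the core
decomposition of `K` collapses `A` to a point.  The glued edge `y = 0` of the square cuts the arcs
near `Z` into pieces, and the core decomposition of the lift only collapses the closures of the
parts of `A` over the gaps of `Z`.  Collapsing the fibres of `c` on `A` is an upper semicontinuous
decomposition of `K` into subcontinua splitting none of these, and it does not collapse `A`.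
-/

set_option autoImplicit false

open Topology
open Pool.Agent.Helper24_Core

namespace Pool.Agent.Results.MP_b18375_gt.TorusCounterexample

/-- `proj` is the quotient projection of the square onto the torus which identifies opposite sides
by translations, and there is a compact subset `K` of the torus whose core decomposition `DK` is
different from the finest upper semicontinuous decomposition `Dτ` of `K` into subcontinua that
splits none of the images of the elements of the core decomposition `DL` of `proj ⁻¹ (K)`. -/
theorem result :
    (IsQuotientMap proj ∧ ∀ z w : square, proj z = proj w ↔
      ((z : ℂ).re = (w : ℂ).re ∨ |(z : ℂ).re - (w : ℂ).re| = 1) ∧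
      ((z : ℂ).im = (w : ℂ).im ∨ |(z : ℂ).im - (w : ℂ).im| = 1)) ∧
    ∃ K : Set Torus, IsCompact K ∧
      ∃ (DK : Setoid K) (DL : Setoid (proj ⁻¹' K)) (Dτ : Setoid K),
        IsCoreDecomposition DK ∧ IsCoreDecomposition DL ∧ IsLiftDecomposition K DL Dτ ∧
          DK ≠ Dτ := by
  obtain ⟨c, f, P⟩ := exists_profile
  exact ⟨⟨proj_isQuotientMap, proj_eq_iff⟩, K f, K_compact P, main_of_profile P⟩

end Pool.Agent.Results.MP_b18375_gt.TorusCounterexample
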